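import Pool.Agent.Helper49.SO.Defs
import Mathlib.NumberTheory.Harmonic.EulerMascheroni

/-!
# SO2: digamma sums

`Gd t = log (t/2π) + O(t^(-3/2))` by the midpoint rule, and the same for the sum of the derivative.
-/

set_option autoImplicit false
open MeasureTheory Set Filter Topology

namespace Pool.Agent.Helper49.SO

private noncomputable def bn (n : ℕ) : ℝ := 2 * n + 1 / 2

private lemma bn_half (n : ℕ) : 1 / 2 ≤ bn n := by
  unfold bn
  have : (0:ℝ) ≤ n := Nat.cast_nonneg n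
  linarith

private lemma bn_ge (n : ℕ) : ((n:ℝ) + 1) / 2 ≤ bn n := by
  unfold bn
  have : (0:ℝ) ≤ n := Nat.cast_nonneg n
  linarith

private lemma sum_bn : Summable fun n : ℕ => bn n ^ (-(3 / 2) : ℝ) := by
  have h1 : Summable fun n : ℕ => ((n + 1 : ℕ) : ℝ) ^ (-(3 / 2) : ℝ) :=
    (summable_nat_add_iff 1).2 (Real.summable_nat_rpow.2 (by norm_num))
  refine Summable.of_nonneg_of_le (fun n => Real.rpow_nonneg (by linarith [bn_half n]) _) (fun n => ?_)
    (h1.mul_left ((1 / 2 : ℝ) ^ (-(3 / 2) : ℝ)))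
  have h2 : (0:ℝ) < (n + 1 : ℕ) := by positivity
  rw [← Real.mul_rpow (by norm_num) h2.le]
  refine Real.rpow_le_rpow_of_nonpos (by positivity) ?_ (by norm_num)
  have := bn_ge n
  push_cast
  linarith

private lemma D32 {b t : ℝ} (hb : 0 < b) (ht : 0 < t) :
    (b ^ 2 + t ^ 2) ^ (-(3 / 2) : ℝ) ≤ b ^ (-(3 / 2) : ℝ) * t ^ (-(3 / 2) : ℝ) := by
  rw [← Real.mul_rpow hb.le ht.le]
  refine Real.rpow_le_rpow_of_nonpos (by positivity) ?_ (by norm_num)
  nlinarith [sq_nonneg (b - t), mul_pos hb ht]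

private lemma D_eq {D : ℝ} (hD : 0 < D) : D ^ (-(3 / 2) : ℝ) = 1 / √D ^ 3 := by
  rw [Real.rpow_neg hD.le, one_div]
  congr 1
  rw [Real.sqrt_eq_rpow, ← Real.rpow_natCast, ← Real.rpow_mul hD.le]
  norm_num

private lemma artanh_bd {x : ℝ} (h0 : 0 ≤ x) (h1 : x ^ 2 ≤ 1 / 2) :
    |1 / 2 * (Real.log (1 + x) - Real.log (1 - x)) - x| ≤ x ^ 3 := by
  have key : ∀ y ∈ Icc (0:ℝ) x, 0 < 1 + y ∧ 0 < 1 - y ∧ y ^ 2 ≤ 1 / 2 := by
    intro y hy
    have h2 : y ^ 2 ≤ x ^ 2 := pow_le_pow_left₀ hy.1 hy.2 2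
    refine ⟨by linarith [hy.1], ?_, by linarith⟩
    nlinarith [hy.1]
  have hd : ∀ y ∈ Icc (0:ℝ) x, HasDerivAt (fun x : ℝ => 1 / 2 * (Real.log (1 + x) - Real.log (1 - x)))
      (1 / (1 - y ^ 2)) y := by
    intro y hy
    obtain ⟨h2, h3, h4⟩ := key y hy
    have e1 : HasDerivAt (fun x : ℝ => 1 + x) 1 y := by simpa using (hasDerivAt_id y).const_add 1
    have e2 : HasDerivAt (fun x : ℝ => 1 - x) (-1) y := by simpa using (hasDerivAt_id y).const_sub 1
    refine (((e1.log h2.ne').sub (e2.log h3.ne')).const_mul (1 / 2)).congr_deriv ?_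
    have h5 : 1 - y ^ 2 ≠ 0 := by
      have : 1 - y ^ 2 = (1 + y) * (1 - y) := by ring
      rw [this]
      positivity
    have h6 : (1 + y) ≠ 0 := h2.ne'
    have h7 : (1 - y) ≠ 0 := h3.ne'
    rw [show 1 - y ^ 2 = (1 + y) * (1 - y) by ring]
    field_simp
    ring
  have m1 : MonotoneOn (fun x : ℝ => 1 / 2 * (Real.log (1 + x) - Real.log (1 - x)) - x) (Icc 0 x) := by
    have hd1 : ∀ y ∈ Icc (0:ℝ) x, HasDerivAt (fun x : ℝ => 1 / 2 * (Real.log (1 + x) - Real.log (1 - x)) - x)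
      (1 / (1 - y ^ 2) - 1) y := fun y hy => (hd y hy).sub (hasDerivAt_id y)
    refine monotoneOn_of_deriv_nonneg (convex_Icc 0 x) (fun y hy => (hd1 y hy).continuousAt.continuousWithinAt)
      (fun y hy => (hd1 y (interior_subset hy)).differentiableAt.differentiableWithinAt) fun y hy => ?_
    rw [(hd1 y (interior_subset hy)).deriv]
    obtain ⟨h2, h3, h4⟩ := key y (interior_subset hy)
    have : 1 ≤ 1 / (1 - y ^ 2) := by
      rw [le_div_iff₀ (by nlinarith)]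
      nlinarith [sq_nonneg y]
    linarith
  have m2 : MonotoneOn (fun x : ℝ => x ^ 3 + x - 1 / 2 * (Real.log (1 + x) - Real.log (1 - x))) (Icc 0 x) := by
    have hd1 : ∀ y ∈ Icc (0:ℝ) x, HasDerivAt (fun x : ℝ => x ^ 3 + x - 1 / 2 * (Real.log (1 + x) - Real.log (1 - x)))
      (3 * y ^ 2 + 1 - 1 / (1 - y ^ 2)) y := fun y hy => by
        have := ((hasDerivAt_pow 3 y).add (hasDerivAt_id y)).sub (hd y hy)
        refine this.congr_deriv ?_
        norm_num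
    refine monotoneOn_of_deriv_nonneg (convex_Icc 0 x) (fun y hy => (hd1 y hy).continuousAt.continuousWithinAt)
      (fun y hy => (hd1 y (interior_subset hy)).differentiableAt.differentiableWithinAt) fun y hy => ?_
    rw [(hd1 y (interior_subset hy)).deriv]
    obtain ⟨h2, h3, h4⟩ := key y (interior_subset hy)
    have : 1 / (1 - y ^ 2) ≤ 3 * y ^ 2 + 1 := by
      rw [div_le_iff₀ (by nlinarith)]
      nlinarith [sq_nonneg y]
    linarith
  have a1 := m1 (left_mem_Icc.2 h0) (right_mem_Icc.2 h0) h0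
  have a2 := m2 (left_mem_Icc.2 h0) (right_mem_Icc.2 h0) h0
  simp only [add_zero, sub_zero, Real.log_one, mul_zero, sub_self, zero_pow (by norm_num : (3:ℕ) ≠ 0)] at a1 a2
  rw [abs_of_nonneg a1]
  linarith

private lemma e_bd {b t : ℝ} (hb : 1 / 2 ≤ b) (ht : 1 ≤ t) :
    |1 / 2 * (Real.log ((b + 1) ^ 2 + t ^ 2) - Real.log ((b - 1) ^ 2 + t ^ 2)) - 2 * (b / (b ^ 2 + t ^ 2))| ≤
      10 * (b ^ (-(3 / 2) : ℝ) * t ^ (-(3 / 2) : ℝ)) := by
  have hb0 : 0 < b := by linarith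
  have ht0 : 0 < t := by linarith
  set D := b ^ 2 + t ^ 2 with hD
  have hD0 : 0 < D := by positivity
  have hD1 : b ^ 2 + 1 ≤ D := by nlinarith
  set x := 2 * b / (D + 1) with hx
  have hx0 : 0 ≤ x := by positivity
  have hx2 : x ^ 2 ≤ 1 / 2 := by
    rw [hx, div_pow, div_le_iff₀ (by positivity)]
    have h1 : (b ^ 2 + 2) ^ 2 ≤ (D + 1) ^ 2 := pow_le_pow_left₀ (by positivity) (by linarith) 2
    nlinarith [sq_nonneg (b ^ 2 - 2)]
  have hx1 : x < 1 := by nlinarith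
  have hlog : Real.log ((b + 1) ^ 2 + t ^ 2) - Real.log ((b - 1) ^ 2 + t ^ 2) = Real.log (1 + x) - Real.log (1 - x) := by
    have e1 : (b + 1) ^ 2 + t ^ 2 = (D + 1) * (1 + x) := by
      rw [hx, hD]
      field_simp
      ring
    have e2 : (b - 1) ^ 2 + t ^ 2 = (D + 1) * (1 - x) := by
      rw [hx, hD]
      field_simp
      ring
    rw [e1, e2, Real.log_mul (by positivity) (by positivity), Real.log_mul (by positivity) (by linarith)]
    ring
  rw [hlog]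
  have h1 := artanh_bd hx0 hx2
  have hs : √D ^ 2 = D := Real.sq_sqrt hD0.le
  have hs0 : 0 < √D := Real.sqrt_pos.2 hD0
  have hbs : b ≤ √D := Real.le_sqrt_of_sq_le (by linarith)
  generalize √D = s at hs hs0 hbs
  have h2 : x ^ 3 ≤ 8 * (1 / s ^ 3) := by
    have : x ≤ 2 * (1 / s) := by
      rw [hx, ← mul_div_assoc, mul_one, div_le_div_iff₀ (by positivity) hs0]
      nlinarith [mul_le_mul_of_nonneg_right hbs hs0.le]
    calc x ^ 3 ≤ (2 * (1 / s)) ^ 3 := pow_le_pow_left₀ hx0 this 3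
      _ = _ := by
        field_simp
        norm_num
  have h3 : |x - 2 * (b / D)| ≤ 2 * (1 / s ^ 3) := by
    have e : x - 2 * (b / D) = -(2 * (b / (D * (D + 1)))) := by
      rw [hx]
      field_simp
      ring
    rw [e, abs_neg, abs_of_nonneg (by positivity)]
    refine mul_le_mul_of_nonneg_left ?_ (by norm_num)
    rw [div_le_div_iff₀ (by positivity) (by positivity), ← hs]
    nlinarith [mul_le_mul_of_nonneg_right hbs (by positivity : 0 ≤ s ^ 3), sq_nonneg s]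
  have h4 := D32 hb0 ht0
  have h5 : (b ^ 2 + t ^ 2) ^ (-(3 / 2) : ℝ) = 1 / s ^ 3 := by
    rw [← hD, D_eq hD0]
    congr 2
    rw [← hs, Real.sqrt_sq hs0.le]
  rw [h5] at h4
  calc |1 / 2 * (Real.log (1 + x) - Real.log (1 - x)) - 2 * (b / D)| =
        |(1 / 2 * (Real.log (1 + x) - Real.log (1 - x)) - x) + (x - 2 * (b / D))| := by ring_nf
    _ ≤ x ^ 3 + 2 * (1 / s ^ 3) := (abs_add_le _ _).trans (add_le_add h1 h3)
    _ ≤ 10 * (1 / s ^ 3) := by linarith
    _ ≤ _ := by linarith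

private lemma f_bd {b t : ℝ} (hb : 1 / 2 ≤ b) (ht : 1 ≤ t) :
    |(b ^ 2 - t ^ 2) / (b ^ 2 + t ^ 2) ^ 2 +
      1 / 2 * ((b + 1) / ((b + 1) ^ 2 + t ^ 2) - (b - 1) / ((b - 1) ^ 2 + t ^ 2))| ≤
      8 * (b ^ (-(3 / 2) : ℝ) * t ^ (-(3 / 2) : ℝ)) := by
  have hb0 : 0 < b := by linarith
  have ht0 : 0 < t := by linarith
  set D := b ^ 2 + t ^ 2 with hD
  have hD0 : 0 < D := by positivity
  have hD1 : b ^ 2 + 1 ≤ D := by nlinarith
  set Q := (D + 1) ^ 2 - 4 * b ^ 2 with hQ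
  have hQ1 : D ^ 2 / 2 ≤ Q := by nlinarith [sq_nonneg (D - 2)]
  have hQ0 : 0 < Q := lt_of_lt_of_le (by positivity) hQ1
  have e1 : (b ^ 2 - t ^ 2) / D ^ 2 + 1 / 2 * ((b + 1) / ((b + 1) ^ 2 + t ^ 2) - (b - 1) / ((b - 1) ^ 2 + t ^ 2)) =
      (b ^ 2 - t ^ 2) * (2 * D + 1 - 4 * b ^ 2) / (D ^ 2 * Q) + 1 / Q := by
    have p1 : 0 < (b + 1) ^ 2 + t ^ 2 := by positivity
    have p2 : 0 < (b - 1) ^ 2 + t ^ 2 := by positivity
    have e2 : 1 / 2 * ((b + 1) / ((b + 1) ^ 2 + t ^ 2) - (b - 1) / ((b - 1) ^ 2 + t ^ 2)) = (t ^ 2 - b ^ 2 + 1) / Q := by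
      have e3 : Q = ((b + 1) ^ 2 + t ^ 2) * ((b - 1) ^ 2 + t ^ 2) := by
        rw [hQ, hD]; ring
      rw [e3]
      field_simp
      ring
    rw [e2]
    have e4 : (b ^ 2 - t ^ 2) * (2 * D + 1 - 4 * b ^ 2) = (b ^ 2 - t ^ 2) * (Q - D ^ 2) := by
      rw [hQ]; ring
    rw [e4]
    field_simp
    ring
  rw [e1]
  have h1 : |(b ^ 2 - t ^ 2) * (2 * D + 1 - 4 * b ^ 2)| ≤ D * (3 * D) := by
    rw [abs_mul]
    refine mul_le_mul ?_ ?_ (abs_nonneg _) hD0.le
    · rw [abs_le, hD]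
      constructor <;> nlinarith [sq_nonneg b, sq_nonneg t]
    · rw [abs_le]
      constructor <;> nlinarith [sq_nonneg b, sq_nonneg t]
  have h2 : 1 / Q ≤ 2 * (1 / D ^ 2) := by
    rw [← mul_div_assoc, mul_one, div_le_div_iff₀ hQ0 (by positivity)]
    linarith
  have h3 : |(b ^ 2 - t ^ 2) * (2 * D + 1 - 4 * b ^ 2) / (D ^ 2 * Q)| ≤ 6 * (1 / D ^ 2) := by
    rw [abs_div, abs_of_pos (by positivity : 0 < D ^ 2 * Q)]
    calc _ ≤ D * (3 * D) / (D ^ 2 * Q) := div_le_div_of_nonneg_right h1 (by positivity)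
      _ = 3 * (1 / Q) := by
          field_simp
      _ ≤ _ := by linarith
  have h4 := D32 hb0 ht0
  have h5 : 1 / D ^ 2 ≤ (b ^ 2 + t ^ 2) ^ (-(3 / 2) : ℝ) := by
    rw [← hD, one_div, ← Real.rpow_natCast, ← Real.rpow_neg hD0.le]
    exact Real.rpow_le_rpow_of_exponent_le (by nlinarith) (by norm_num)
  have h6 : |1 / Q| = 1 / Q := abs_of_pos (by positivity)
  calc _ ≤ 6 * (1 / D ^ 2) + 2 * (1 / D ^ 2) := (abs_add_le _ _).trans (add_le_add h3 (by rw [h6]; exact h2))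
    _ = 8 * (1 / D ^ 2) := by ring
    _ ≤ _ := by linarith

theorem Gd_summable (t : ℝ) :
    Summable fun n : ℕ => (1 / ((n:ℝ) + 1) - 2 * ((2 * n + 1 / 2) / ((2 * n + 1 / 2) ^ 2 + t ^ 2))) := by
  have h1 : Summable fun n : ℕ => (4 * t ^ 2 + 3) * (1 / ((n + 1 : ℕ) : ℝ) ^ 2) :=
    ((summable_nat_add_iff 1).2 (Real.summable_one_div_nat_pow.2 (by norm_num : 1 < 2))).mul_left _
  refine Summable.of_norm_bounded h1 fun n => ?_
  have hn : (0:ℝ) ≤ n := Nat.cast_nonneg n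
  set m : ℝ := (n : ℝ) + 1 with hm
  have hm1 : 1 ≤ m := by linarith
  set b : ℝ := 2 * n + 1 / 2 with hb
  have hb0 : 0 < b := by positivity
  have hbm : m / 2 ≤ b := by rw [hb, hm]; linarith
  have e : 1 / m - 2 * (b / (b ^ 2 + t ^ 2)) = (t ^ 2 - 3 / 2 * b) / (m * (b ^ 2 + t ^ 2)) := by
    have : b = 2 * m - 3 / 2 := by rw [hb, hm]; ring
    have h2 : 0 < b ^ 2 + t ^ 2 := by positivity
    field_simp
    rw [this]
    ring
  rw [e, Real.norm_eq_abs, abs_div, abs_of_pos (by positivity : 0 < m * (b ^ 2 + t ^ 2))]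
  have h2 : |t ^ 2 - 3 / 2 * b| ≤ t ^ 2 + 3 / 2 * b := by
    rw [abs_le]
    constructor <;> nlinarith [sq_nonneg t]
  push_cast
  rw [← hm]
  have hmb : m ≤ 2 * b := by linarith
  calc |t ^ 2 - 3 / 2 * b| / (m * (b ^ 2 + t ^ 2)) ≤ (t ^ 2 + 3 / 2 * b) / (m * b ^ 2) := by
        refine div_le_div₀ (by positivity) h2 (by positivity) ?_
        refine mul_le_mul_of_nonneg_left ?_ (by positivity)
        nlinarith [sq_nonneg t]
    _ ≤ (4 * t ^ 2 + 3) * (1 / m ^ 2) := by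
        rw [← mul_div_assoc, mul_one, div_le_div_iff₀ (by positivity) (by positivity)]
        have h3 : m ^ 2 ≤ 4 * b ^ 2 := by nlinarith
        have h4 : m ^ 2 * b ≤ m * b ^ 2 * 2 := by nlinarith [mul_pos hb0 (by linarith : 0 < m)]
        have h5 : t ^ 2 * m ^ 2 ≤ t ^ 2 * (4 * b ^ 2) * m := by
          have := mul_le_mul_of_nonneg_left h3 (sq_nonneg t)
          have h6 : 0 ≤ t ^ 2 * (4 * b ^ 2) := by positivity
          nlinarith
        nlinarith

private lemma tele (g : ℕ → ℝ) (N : ℕ) : ∑ n ∈ Finset.range N, (g (n + 1) - g n) = g N - g 0 :=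
  Finset.sum_range_sub g N

theorem Gd_asy : ∃ C : ℝ, 0 < C ∧ ∀ t : ℝ, 1 ≤ t → |Gd t - Real.log (t / (2 * Real.pi))| ≤ C * t ^ (-(3 / 2) : ℝ) := by
  set S := ∑' n : ℕ, bn n ^ (-(3 / 2) : ℝ) with hS
  have hS0 : 0 ≤ S := tsum_nonneg fun n => Real.rpow_nonneg (by linarith [bn_half n]) _
  refine ⟨10 * S + 1, by positivity, fun t ht => ?_⟩
  have ht0 : 0 < t := by linarith
  have hp := Real.pi_pos
  set a : ℕ → ℝ := fun n => (1 / ((n:ℝ) + 1) - 2 * ((2 * n + 1 / 2) / ((2 * n + 1 / 2) ^ 2 + t ^ 2))) with ha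
  have hsum := (Gd_summable t).hasSum.tendsto_sum_nat
  set g : ℕ → ℝ := fun n => Real.log ((2 * (n:ℝ) - 1 / 2) ^ 2 + t ^ 2) with hg
  set e : ℕ → ℝ := fun n => 1 / 2 * (g (n + 1) - g n) - 2 * (bn n / (bn n ^ 2 + t ^ 2)) with he
  have he_bd : ∀ n, |e n| ≤ 10 * (bn n ^ (-(3 / 2) : ℝ) * t ^ (-(3 / 2) : ℝ)) := by
    intro n
    have h1 := e_bd (bn_half n) ht
    have e1 : (bn n + 1) ^ 2 + t ^ 2 = (2 * ((n + 1 : ℕ) : ℝ) - 1 / 2) ^ 2 + t ^ 2 := by
      unfold bn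
      push_cast
      ring
    have e2 : (bn n - 1) ^ 2 + t ^ 2 = (2 * (n : ℝ) - 1 / 2) ^ 2 + t ^ 2 := by
      unfold bn
      ring
    rw [e1, e2] at h1
    exact h1
  -- partial sums
  have hpart : ∀ N : ℕ, ∑ n ∈ Finset.range N, a n =
      ((harmonic N : ℝ) - Real.log N) - 1 / 2 * (g N - 2 * Real.log N) + 1 / 2 * Real.log (1 / 4 + t ^ 2) +
        ∑ n ∈ Finset.range N, e n := by
    intro N
    have h1 : ∀ n, a n = 1 / ((n:ℝ) + 1) - 1 / 2 * (g (n + 1) - g n) + e n := by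
      intro n
      simp only [ha, he]
      unfold bn
      ring
    simp_rw [h1]
    rw [Finset.sum_add_distrib, Finset.sum_sub_distrib, ← Finset.mul_sum, tele]
    have h2 : (harmonic N : ℝ) = ∑ n ∈ Finset.range N, 1 / ((n:ℝ) + 1) := by
      unfold harmonic
      push_cast
      refine Finset.sum_congr rfl fun n _ => ?_
      rw [one_div]
    have h3 : g 0 = Real.log (1 / 4 + t ^ 2) := by
      simp only [hg]
      norm_num
    rw [h2, h3]
    ring
  -- the limit of the correction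
  have hlim : Tendsto (fun N : ℕ => g N - 2 * Real.log N) atTop (𝓝 (Real.log 4)) := by
    have h1 : Tendsto (fun N : ℕ => (2 - 1 / 2 * (1 / (N : ℝ))) ^ 2 + t ^ 2 * (1 / (N : ℝ)) ^ 2) atTop (𝓝 4) := by
      have h0 : Tendsto (fun N : ℕ => 1 / (N : ℝ)) atTop (𝓝 0) := tendsto_one_div_atTop_nhds_zero_nat
      have := (((h0.const_mul (1 / 2)).const_sub 2).pow 2).add ((h0.pow 2).const_mul (t ^ 2))
      norm_num at this ⊢
      exact this
    have h2 := (Real.continuousAt_log (by norm_num : (4:ℝ) ≠ 0)).tendsto.comp h1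
    refine h2.congr' ?_
    filter_upwards [eventually_gt_atTop 0] with N hN
    have hN0 : (0:ℝ) < N := by exact_mod_cast hN
    simp only [Function.comp, hg]
    have e1 : (2 * (N:ℝ) - 1 / 2) ^ 2 + t ^ 2 = ((2 - 1 / 2 * (1 / (N : ℝ))) ^ 2 + t ^ 2 * (1 / (N : ℝ)) ^ 2) * (N:ℝ) ^ 2 := by
      field_simp
    rw [e1, Real.log_mul (by positivity) (by positivity), Real.log_pow]
    push_cast
    ring
  have hharm := Real.tendsto_harmonic_sub_log
  -- bound
  set L := ∑' n, a n with hL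
  have hE : |L - (Real.eulerMascheroniConstant - 1 / 2 * Real.log 4 + 1 / 2 * Real.log (1 / 4 + t ^ 2))| ≤
      10 * S * t ^ (-(3 / 2) : ℝ) := by
    have h1 : Tendsto (fun N : ℕ => |∑ n ∈ Finset.range N, a n - (((harmonic N : ℝ) - Real.log N) -
        1 / 2 * (g N - 2 * Real.log N) + 1 / 2 * Real.log (1 / 4 + t ^ 2))|) atTop
        (𝓝 |L - (Real.eulerMascheroniConstant - 1 / 2 * Real.log 4 + 1 / 2 * Real.log (1 / 4 + t ^ 2))|) :=
      (hsum.sub ((hharm.sub (hlim.const_mul (1 / 2))).add_const _)).abs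
    refine le_of_tendsto' h1 fun N => ?_
    rw [hpart N, add_sub_cancel_left]
    refine (Finset.abs_sum_le_sum_abs _ _).trans ((Finset.sum_le_sum fun n _ => he_bd n).trans ?_)
    rw [← Finset.mul_sum, ← Finset.sum_mul, mul_assoc]
    refine mul_le_mul_of_nonneg_left (mul_le_mul_of_nonneg_right ?_ (by positivity)) (by norm_num)
    exact sum_bn.sum_le_tsum _ fun n _ => Real.rpow_nonneg (by linarith [bn_half n]) _
  have hGd : Gd t = L - (Real.log Real.pi + Real.eulerMascheroniConstant) := rfl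
  have hlog4 : Real.log 4 = 2 * Real.log 2 := by
    rw [show (4:ℝ) = 2 ^ 2 by norm_num, Real.log_pow]
    norm_num
  have hlogt : Real.log (t / (2 * Real.pi)) = Real.log t - Real.log 2 - Real.log Real.pi := by
    rw [Real.log_div (by positivity) (by positivity), Real.log_mul (by norm_num) (by positivity)]
    ring
  have h3 : |1 / 2 * Real.log (1 / 4 + t ^ 2) - Real.log t| ≤ t ^ (-(3 / 2) : ℝ) := by
    have e1 : 1 / 4 + t ^ 2 = t ^ 2 * (1 + 1 / (4 * t ^ 2)) := by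
      field_simp
      ring
    rw [e1, Real.log_mul (by positivity) (by positivity), Real.log_pow]
    push_cast
    have e2 : 1 / 2 * (2 * Real.log t + Real.log (1 + 1 / (4 * t ^ 2))) - Real.log t =
        1 / 2 * Real.log (1 + 1 / (4 * t ^ 2)) := by ring
    rw [e2]
    have h4 : 0 ≤ Real.log (1 + 1 / (4 * t ^ 2)) := Real.log_nonneg (by
      have : 0 ≤ 1 / (4 * t ^ 2) := by positivity
      linarith)
    have h5 : Real.log (1 + 1 / (4 * t ^ 2)) ≤ 1 / (4 * t ^ 2) := by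
      have := Real.log_le_sub_one_of_pos (by positivity : 0 < 1 + 1 / (4 * t ^ 2))
      linarith
    have h6 : 1 / t ^ 2 ≤ t ^ (-(3 / 2) : ℝ) := by
      rw [one_div, ← Real.rpow_natCast, ← Real.rpow_neg ht0.le]
      exact Real.rpow_le_rpow_of_exponent_le ht (by norm_num)
    have h7 : 1 / (4 * t ^ 2) = 1 / 4 * (1 / t ^ 2) := by field_simp
    have h8 : 0 ≤ 1 / t ^ 2 := by positivity
    rw [abs_of_nonneg (by positivity)]
    linarith
  have e5 : Gd t - Real.log (t / (2 * Real.pi)) =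
      (L - (Real.eulerMascheroniConstant - 1 / 2 * Real.log 4 + 1 / 2 * Real.log (1 / 4 + t ^ 2))) +
        (1 / 2 * Real.log (1 / 4 + t ^ 2) - Real.log t) := by
    rw [hGd, hlogt, hlog4]
    ring
  rw [e5]
  refine (abs_add_le _ _).trans ?_
  rw [add_mul, one_mul]
  exact add_le_add hE h3

theorem sq_asy : ∃ C : ℝ, 0 < C ∧ ∀ t : ℝ, 1 ≤ t →
    |∑' n : ℕ, ((2 * n + 1 / 2) ^ 2 - t ^ 2) / ((2 * n + 1 / 2) ^ 2 + t ^ 2) ^ 2| ≤ C * t ^ (-(3 / 2) : ℝ) := by
  set S := ∑' n : ℕ, bn n ^ (-(3 / 2) : ℝ) with hS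
  have hS0 : 0 ≤ S := tsum_nonneg fun n => Real.rpow_nonneg (by linarith [bn_half n]) _
  refine ⟨8 * S + 1, by positivity, fun t ht => ?_⟩
  have ht0 : 0 < t := by linarith
  set a : ℕ → ℝ := fun n => ((2 * n + 1 / 2) ^ 2 - t ^ 2) / ((2 * n + 1 / 2) ^ 2 + t ^ 2) ^ 2 with ha
  have hsa : Summable a := by
    have h1 : Summable fun n : ℕ => 4 * (1 / ((n + 1 : ℕ) : ℝ) ^ 2) :=
      ((summable_nat_add_iff 1).2 (Real.summable_one_div_nat_pow.2 (by norm_num : 1 < 2))).mul_left _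
    refine Summable.of_norm_bounded h1 fun n => ?_
    have hn : (0:ℝ) ≤ n := Nat.cast_nonneg n
    simp only [ha]
    set b : ℝ := 2 * n + 1 / 2 with hb
    have hb0 : 0 < b := by positivity
    have h2 : |b ^ 2 - t ^ 2| ≤ b ^ 2 + t ^ 2 := by
      rw [abs_le]
      constructor <;> nlinarith [sq_nonneg b, sq_nonneg t]
    rw [Real.norm_eq_abs, abs_div, abs_of_pos (by positivity : 0 < (b ^ 2 + t ^ 2) ^ 2)]
    push_cast
    calc |b ^ 2 - t ^ 2| / (b ^ 2 + t ^ 2) ^ 2 ≤ (b ^ 2 + t ^ 2) / (b ^ 2 + t ^ 2) ^ 2 :=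
          div_le_div_of_nonneg_right h2 (by positivity)
      _ = 1 / (b ^ 2 + t ^ 2) := by field_simp
      _ ≤ 4 * (1 / ((n:ℝ) + 1) ^ 2) := by
          rw [← mul_div_assoc, mul_one, div_le_div_iff₀ (by positivity) (by positivity)]
          have : ((n:ℝ) + 1) ≤ 2 * b := by rw [hb]; linarith
          nlinarith [sq_nonneg t]
  set g : ℕ → ℝ := fun n => (2 * (n:ℝ) - 1 / 2) / ((2 * (n:ℝ) - 1 / 2) ^ 2 + t ^ 2) with hg
  set f : ℕ → ℝ := fun n => a n + 1 / 2 * (g (n + 1) - g n) with hf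
  have hf_bd : ∀ n, |f n| ≤ 8 * (bn n ^ (-(3 / 2) : ℝ) * t ^ (-(3 / 2) : ℝ)) := by
    intro n
    have h1 := f_bd (bn_half n) ht
    have e1 : bn n + 1 = 2 * ((n + 1 : ℕ) : ℝ) - 1 / 2 := by
      unfold bn
      push_cast
      ring
    have e2 : bn n - 1 = 2 * (n : ℝ) - 1 / 2 := by
      unfold bn
      ring
    rw [e1, e2] at h1
    exact h1
  have hpart : ∀ N : ℕ, ∑ n ∈ Finset.range N, a n = ∑ n ∈ Finset.range N, f n - 1 / 2 * (g N - g 0) := by
    intro N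
    rw [← tele g N, Finset.mul_sum, ← Finset.sum_sub_distrib]
    refine Finset.sum_congr rfl fun n _ => ?_
    simp only [hf]
    ring
  have hlim : Tendsto g atTop (𝓝 0) := by
    have h0 : Tendsto (fun N : ℕ => 1 / (N : ℝ)) atTop (𝓝 0) := tendsto_one_div_atTop_nhds_zero_nat
    refine squeeze_zero_norm' ?_ h0
    filter_upwards [eventually_gt_atTop 0] with N hN
    have hN1 : (1:ℝ) ≤ N := by exact_mod_cast hN
    simp only [hg]
    set x : ℝ := 2 * (N:ℝ) - 1 / 2 with hx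
    have hx0 : 0 < x := by linarith
    rw [Real.norm_eq_abs, abs_of_nonneg (by positivity), div_le_div_iff₀ (by positivity) (by positivity)]
    nlinarith [sq_nonneg t]
  have h1 : Tendsto (fun N : ℕ => |∑ n ∈ Finset.range N, a n + 1 / 2 * (g N - g 0)|) atTop
      (𝓝 |∑' n, a n + 1 / 2 * (0 - g 0)|) :=
    (hsa.hasSum.tendsto_sum_nat.add ((hlim.sub_const _).const_mul (1 / 2))).abs
  have h2 : |∑' n, a n + 1 / 2 * (0 - g 0)| ≤ 8 * S * t ^ (-(3 / 2) : ℝ) := by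
    refine le_of_tendsto' h1 fun N => ?_
    rw [hpart N, sub_add_cancel]
    refine (Finset.abs_sum_le_sum_abs _ _).trans ((Finset.sum_le_sum fun n _ => hf_bd n).trans ?_)
    rw [← Finset.mul_sum, ← Finset.sum_mul, mul_assoc]
    refine mul_le_mul_of_nonneg_left (mul_le_mul_of_nonneg_right ?_ (by positivity)) (by norm_num)
    exact sum_bn.sum_le_tsum _ fun n _ => Real.rpow_nonneg (by linarith [bn_half n]) _
  have h3 : |1 / 2 * (0 - g 0)| ≤ t ^ (-(3 / 2) : ℝ) := by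
    have e1 : 1 / 2 * (0 - g 0) = 1 / 4 * (1 / (1 / 4 + t ^ 2)) := by
      simp only [hg]
      norm_num
      ring
    rw [e1, abs_of_nonneg (by positivity)]
    have h6 : 1 / t ^ 2 ≤ t ^ (-(3 / 2) : ℝ) := by
      rw [one_div, ← Real.rpow_natCast, ← Real.rpow_neg ht0.le]
      exact Real.rpow_le_rpow_of_exponent_le ht (by norm_num)
    have h7 : 1 / (1 / 4 + t ^ 2) ≤ 1 / t ^ 2 := one_div_le_one_div_of_le (by positivity) (by linarith)
    have h8 : 0 ≤ 1 / t ^ 2 := by positivity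
    linarith
  have h4 : |∑' n, a n| ≤ |∑' n, a n + 1 / 2 * (0 - g 0)| + |1 / 2 * (0 - g 0)| := by
    have := abs_sub (∑' n, a n + 1 / 2 * (0 - g 0)) (1 / 2 * (0 - g 0))
    rwa [add_sub_cancel_right] at this
  rw [add_mul, one_mul]
  linarith

end Pool.Agent.Helper49.SO
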