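import Pool.Agent.Helper49.SO.Defs
import Pool.Agent.Helper64.UG.Tail

/-!
# SO5: the edge term is small in mean

`P2 a` is a bounded antiderivative of `Pk a`, hence the integral of the edge term over a window is small.
-/

set_option autoImplicit false
open MeasureTheory Set Filter Topology
open Pool.Agent.Helper57.Zeta Pool.Agent.Helper57.LH Pool.Agent.Helper57.ED Pool.Agent.Helper54.LG
open Pool.Agent.Helper24.WS (Pk Edge EdgeM)
open Pool.Agent.Helper64.UG (hasSum64 xi_le64)

namespace Pool.Agent.Helper49.SO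

private lemma swap64 {F : ℝ → ℝ → ℝ} (hF : Continuous (Function.uncurry F)) (a b c d : ℝ) :
    ∫ x in a..b, ∫ y in c..d, F x y = ∫ y in c..d, ∫ x in a..b, F x y := by
  refine intervalIntegral_intervalIntegral_swap ?_
  refine (hF.continuousOn.integrableOn_compact (isCompact_uIcc.prod isCompact_uIcc)
    (K := uIcc a b ×ˢ uIcc c d)).mono_set ?_
  exact prod_mono uIoc_subset_uIcc uIoc_subset_uIcc

/-- the product identity behind `P2' = Pk` -/
private lemma prod64 (a b u : ℝ) :
    (∫ α in (0:ℝ)..a, Real.sinh (α * u)) * (∫ x in (0:ℝ)..b, Real.sin (x * u)) =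
      (∫ r in (0:ℝ)..a, (a - r) * Real.cosh (r * u)) * (1 - Real.cos (b * u)) := by
  rcases eq_or_ne u 0 with h | h
  · subst h
    simp
  · have h1 : (∫ x in (0:ℝ)..b, Real.sin (x * u)) = (1 - Real.cos (b * u)) / u := by
      rw [intervalIntegral.integral_comp_mul_right (fun x => Real.sin x) h, integral_sin]
      simp [div_eq_inv_mul]
    have h2 : (∫ α in (0:ℝ)..a, Real.sinh (α * u)) = (Real.cosh (a * u) - 1) / u := by
      have hd : ∀ x ∈ uIcc 0 a, HasDerivAt (fun x : ℝ => Real.cosh (x * u) / u) (Real.sinh (x * u)) x := by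
        intro x _
        have h3 : HasDerivAt (fun x : ℝ => x * u) u x := by simpa using (hasDerivAt_id x).mul_const u
        have := h3.cosh.div_const u
        refine this.congr_deriv ?_
        field_simp
      rw [intervalIntegral.integral_eq_sub_of_hasDerivAt hd (by apply Continuous.intervalIntegrable; fun_prop)]
      simp
      ring
    have h3 : (∫ r in (0:ℝ)..a, (a - r) * Real.cosh (r * u)) = (Real.cosh (a * u) - 1) / u ^ 2 := by
      have hd : ∀ x ∈ uIcc 0 a, HasDerivAt (fun x : ℝ => (a - x) * Real.sinh (x * u) / u + Real.cosh (x * u) / u ^ 2)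
          ((a - x) * Real.cosh (x * u)) x := by
        intro x _
        have h3 : HasDerivAt (fun x : ℝ => x * u) u x := by simpa using (hasDerivAt_id x).mul_const u
        have h4 : HasDerivAt (fun x : ℝ => a - x) (-1) x := by simpa using (hasDerivAt_id x).const_sub a
        have := ((h4.mul h3.sinh).div_const u).add (h3.cosh.div_const (u ^ 2))
        refine this.congr_deriv ?_
        field_simp
        ring
      rw [intervalIntegral.integral_eq_sub_of_hasDerivAt hd (by apply Continuous.intervalIntegrable; fun_prop)]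
      simp
      ring
    rw [h1, h2, h3]
    field_simp

private lemma P2_sub (a b : ℝ) : P2 a b - P2 a 0 = ∫ x in (0:ℝ)..b, Pk a x := by
  have c1 : ∀ b : ℝ, Continuous fun r => (a - r) * qk r b := by
    intro b
    have : Continuous fun r => qk r b := by
      unfold qk
      refine continuous_const.mul ?_
      exact intervalIntegral.continuous_parametric_intervalIntegral_of_continuous' (by fun_prop) 0 1
    fun_prop
  have e0 : P2 a b - P2 a 0 = ∫ r in (0:ℝ)..a, ∫ u in (0:ℝ)..1,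
      2 * ((1 - u) ^ 2 * ((a - r) * Real.cosh (r * u)) * (1 - Real.cos (b * u))) := by
    unfold P2
    rw [neg_sub_neg, ← intervalIntegral.integral_sub ((c1 0).intervalIntegrable _ _) ((c1 b).intervalIntegrable _ _)]
    refine intervalIntegral.integral_congr fun r _ => ?_
    rw [← mul_sub]
    unfold qk
    rw [← mul_sub, ← intervalIntegral.integral_sub (by apply Continuous.intervalIntegrable; fun_prop)
      (by apply Continuous.intervalIntegrable; fun_prop), ← mul_assoc, mul_comm (a - r) 2, mul_assoc,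
      ← intervalIntegral.integral_const_mul, ← intervalIntegral.integral_const_mul]
    refine intervalIntegral.integral_congr fun u _ => ?_
    simp only [zero_mul, Real.cos_zero]
    ring
  have e1 : (∫ x in (0:ℝ)..b, Pk a x) = ∫ x in (0:ℝ)..b, ∫ u in (0:ℝ)..1, ∫ α in (0:ℝ)..a,
      2 * ((1 - u) ^ 2 * Real.sinh (α * u) * Real.sin (x * u)) := by
    refine intervalIntegral.integral_congr fun x _ => ?_
    rw [Pool.Agent.Helper24.WS.Pk_eq]
    unfold Pool.Agent.Helper24.WS.Rk
    rw [← swap64 (F := fun α u => 2 * ((1 - u) ^ 2 * Real.sinh (α * u) * Real.sin (x * u)))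
      (by unfold Function.uncurry; fun_prop) 0 a 0 1]
    refine intervalIntegral.integral_congr fun α _ => ?_
    rw [intervalIntegral.integral_const_mul]
  have e2 : (∫ x in (0:ℝ)..b, Pk a x) = ∫ x in (0:ℝ)..b, ∫ u in (0:ℝ)..1,
      2 * ((1 - u) ^ 2 * (∫ α in (0:ℝ)..a, Real.sinh (α * u)) * Real.sin (x * u)) := by
    rw [e1]
    refine intervalIntegral.integral_congr fun x _ => ?_
    refine intervalIntegral.integral_congr fun u _ => ?_
    have : ∀ α : ℝ, 2 * ((1 - u) ^ 2 * Real.sinh (α * u) * Real.sin (x * u)) =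
        (2 * (1 - u) ^ 2 * Real.sin (x * u)) * Real.sinh (α * u) := fun α => by ring
    simp_rw [this]
    rw [intervalIntegral.integral_const_mul]
    ring
  have hc : Continuous fun u : ℝ => ∫ α in (0:ℝ)..a, Real.sinh (α * u) :=
    intervalIntegral.continuous_parametric_intervalIntegral_of_continuous' (by fun_prop) 0 a
  have hc2 : Continuous fun p : ℝ × ℝ => ∫ α in (0:ℝ)..a, Real.sinh (α * p.2) := hc.comp continuous_snd
  rw [e0, e2, swap64 (F := fun r u => 2 * ((1 - u) ^ 2 * ((a - r) * Real.cosh (r * u)) * (1 - Real.cos (b * u))))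
      (by unfold Function.uncurry; fun_prop) 0 a 0 1,
    swap64 (F := fun x u => 2 * ((1 - u) ^ 2 * (∫ α in (0:ℝ)..a, Real.sinh (α * u)) * Real.sin (x * u)))
      (by unfold Function.uncurry; fun_prop) 0 b 0 1]
  refine intervalIntegral.integral_congr fun u _ => ?_
  have h1 : ∀ r : ℝ, 2 * ((1 - u) ^ 2 * ((a - r) * Real.cosh (r * u)) * (1 - Real.cos (b * u))) =
      (2 * (1 - u) ^ 2 * (1 - Real.cos (b * u))) * ((a - r) * Real.cosh (r * u)) := fun r => by ring
  have h2 : ∀ x : ℝ, 2 * ((1 - u) ^ 2 * (∫ α in (0:ℝ)..a, Real.sinh (α * u)) * Real.sin (x * u)) =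
      (2 * (1 - u) ^ 2 * (∫ α in (0:ℝ)..a, Real.sinh (α * u))) * Real.sin (x * u) := fun r => by ring
  simp_rw [h1, h2]
  rw [intervalIntegral.integral_const_mul, intervalIntegral.integral_const_mul]
  have := prod64 a b u
  linear_combination (-(2 * (1 - u) ^ 2)) * this

theorem P2_deriv {a : ℝ} (ha : 0 ≤ a) (b : ℝ) : HasDerivAt (fun b => P2 a b) (Pk a b) b := by
  have _ := ha
  have h1 : (fun b => P2 a b) = fun b => P2 a 0 + ∫ x in (0:ℝ)..b, Pk a x := by
    funext b
    linarith [P2_sub a b]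
  rw [h1]
  refine HasDerivAt.const_add _ ?_
  have hc := Pool.Agent.Helper24.WS.Pk_cont a
  exact intervalIntegral.integral_hasDerivAt_right (hc.intervalIntegrable _ _)
    (hc.stronglyMeasurableAtFilter _ _) hc.continuousAt

theorem P2_bd {a : ℝ} (ha : 0 ≤ a) (b : ℝ) : |P2 a b| ≤ 11 * a ^ 2 * Real.cosh a / (1 + b ^ 2) := by
  unfold P2
  rw [abs_neg]
  have hca := Real.cosh_pos a
  have h1 : |∫ r in (0:ℝ)..a, (a - r) * qk r b| ≤ ∫ r in (0:ℝ)..a, (a - r) * (21 * Real.cosh a / (1 + b ^ 2)) := by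
    rw [← Real.norm_eq_abs]
    refine intervalIntegral.norm_integral_le_of_norm_le ha (Eventually.of_forall fun r hr => ?_) (by
      apply Continuous.intervalIntegrable; fun_prop)
    rw [Real.norm_eq_abs, abs_mul, abs_of_nonneg (by linarith [hr.2])]
    refine mul_le_mul_of_nonneg_left ((qk_bound r b).trans ?_) (by linarith [hr.2])
    refine div_le_div_of_nonneg_right (mul_le_mul_of_nonneg_left ?_ (by norm_num)) (by positivity)
    rw [Real.cosh_le_cosh, abs_of_nonneg hr.1.le, abs_of_nonneg ha]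
    exact hr.2
  refine h1.trans ?_
  rw [intervalIntegral.integral_mul_const, intervalIntegral.integral_sub (by simp) (by simp)]
  rw [intervalIntegral.integral_const, integral_id]
  simp only [sub_zero, smul_eq_mul]
  have e : (a * a - (a ^ 2 - 0 ^ 2) / 2) * (21 * Real.cosh a / (1 + b ^ 2)) =
      21 / 2 * (a ^ 2 * Real.cosh a / (1 + b ^ 2)) := by ring
  rw [e]
  have : 11 * a ^ 2 * Real.cosh a / (1 + b ^ 2) = 11 * (a ^ 2 * Real.cosh a / (1 + b ^ 2)) := by ring
  rw [this]
  have : 0 ≤ a ^ 2 * Real.cosh a / (1 + b ^ 2) := by positivity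
  linarith

private lemma inv_sum64 : ∃ C : ℝ, 0 < C ∧ ∀ X t : ℝ, 1 / 2 ≤ X →
    ∑' ρ : ZS, mx ρ * (1 / (1 + zb X t ρ ^ 2)) ≤ C * Real.log (4 + |t|) := by
  obtain ⟨C, hC, hb⟩ := xi_le64
  refine ⟨16 * (C + 1), by linarith, fun X t hX => ?_⟩
  have hs := hasSum64 (B := 2) (by norm_num) t
  have hlog : 1 ≤ Real.log (4 + |t|) := by
    have h1 : Real.exp 1 ≤ 4 + |t| := by linarith [Real.exp_one_lt_d9, abs_nonneg t]
    have := Real.log_le_log (Real.exp_pos 1) h1
    rwa [Real.log_exp] at this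
  refine tsum_le_of_sum_le' (by positivity) fun Z => ?_
  have h1 : ∀ ρ ∈ Z, mx (ρ : ZS) * (1 / (1 + zb X t ρ ^ 2)) ≤
      16 * (mx ρ * ((2 - (ρ : ℂ).re) / ((2 - (ρ : ℂ).re) ^ 2 + (t - (ρ : ℂ).im) ^ 2))) := by
    intro ρ _
    have hm := mx_nonneg (ρ : ℂ)
    have hβ := zs_re ρ
    set b := 2 - (ρ : ℂ).re with hbd
    have hb1 : 1 ≤ b := by rw [hbd]; linarith
    have hb2 : b ≤ 2 := by rw [hbd]; linarith
    set s := t - (ρ : ℂ).im with hsd
    have h2 : 1 / (1 + zb X t ρ ^ 2) ≤ 4 * (1 / (1 + s ^ 2)) := by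
      unfold zb
      rw [← hsd, ← mul_div_assoc, mul_one, div_le_div_iff₀ (by positivity) (by positivity)]
      have : 1 / 4 * s ^ 2 ≤ (X * s) ^ 2 := by
        rw [mul_pow]
        have : (1 / 2) ^ 2 ≤ X ^ 2 := pow_le_pow_left₀ (by norm_num) hX 2
        nlinarith [sq_nonneg s]
      linarith
    have h3 : 1 / (1 + s ^ 2) ≤ 4 * (b / (b ^ 2 + s ^ 2)) := by
      rw [← mul_div_assoc, div_le_div_iff₀ (by positivity) (by positivity)]
      nlinarith [sq_nonneg s, mul_nonneg (by linarith : 0 ≤ b - 1) (sq_nonneg s)]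
    calc mx ρ * (1 / (1 + zb X t ρ ^ 2))
        ≤ mx ρ * (4 * (4 * (b / (b ^ 2 + s ^ 2)))) := mul_le_mul_of_nonneg_left (h2.trans (by linarith)) hm
      _ = _ := by ring
  refine (Finset.sum_le_sum h1).trans ?_
  rw [← Finset.mul_sum]
  have h4 : ∑ ρ ∈ Z, mx (ρ : ZS) * ((2 - (ρ : ℂ).re) / ((2 - (ρ : ℂ).re) ^ 2 + (t - (ρ : ℂ).im) ^ 2)) ≤ _ :=
    sum_le_hasSum Z (fun ρ _ => by
      have hm := mx_nonneg (ρ : ℂ)
      have hβ := zs_re ρ
      refine mul_nonneg hm (div_nonneg (by linarith) (by positivity))) hs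
  have h5 := hb (((2 : ℝ) : ℂ) + (t : ℂ) * Complex.I) (by simp)
  have h6 : Real.log (‖((2 : ℝ) : ℂ) + (t : ℂ) * Complex.I‖ + 2) ≤ Real.log (4 + |t|) := by
    refine Real.log_le_log (by positivity) ?_
    have h7 := Complex.norm_le_abs_re_add_abs_im (((2 : ℝ) : ℂ) + (t : ℂ) * Complex.I)
    have e1 : (((2 : ℝ) : ℂ) + (t : ℂ) * Complex.I).re = 2 := by simp
    have e2 : (((2 : ℝ) : ℂ) + (t : ℂ) * Complex.I).im = t := by simp
    rw [e1, e2, abs_of_pos (by norm_num : (0:ℝ) < 2)] at h7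
    linarith
  nlinarith [mul_le_mul_of_nonneg_left hlog hC]

private lemma inv_shift64 (x y : ℝ) : 1 / (1 + (x + y) ^ 2) ≤ 2 * (1 + y ^ 2) * (1 / (1 + x ^ 2)) := by
  rw [← mul_div_assoc, mul_one, div_le_div_iff₀ (by positivity) (by positivity)]
  nlinarith [sq_nonneg (x + 2 * y), sq_nonneg (x + y), sq_nonneg ((x + y) * y), sq_nonneg x, sq_nonneg y]

theorem int_Edge : ∃ C : ℝ, 0 < C ∧ ∀ X : ℝ, 1 / 2 ≤ X → ∀ t H : ℝ, 0 ≤ H →
    IntervalIntegrable (Edge X) volume t (t + H) ∧
    |∫ y in t..(t + H), Edge X y| ≤ C * (X * Real.exp (X / 2)) * Real.log (4 + |t| + H) := by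
  obtain ⟨C, hC, hS⟩ := inv_sum64
  refine ⟨11 / 2 * C, by positivity, fun X hX t H hH => ?_⟩
  have hX0 : 0 < X := by linarith
  set B : ℝ := 76 * Real.exp X with hB
  set R : ℝ := 2 * (1 + (X * H) ^ 2) with hR
  have hB0 : 0 < B := by positivity
  -- pointwise majorant on the window
  have hmaj : ∀ ρ : ZS, ∀ y ∈ uIoc t (t + H), ‖mx ρ * Pk (za X ρ) (zb X y ρ)‖ ≤ B * R * (mx ρ * (1 / (1 + zb X t ρ ^ 2))) := by
    intro ρ y hy
    have hm := mx_nonneg (ρ : ℂ)
    rw [uIoc_of_le (by linarith)] at hy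
    rw [Real.norm_eq_abs, abs_mul, abs_of_nonneg hm]
    have h1 := Pool.Agent.Helper24.WS.Pk_abs_le'' (Pool.Agent.Helper24.WS.za_nonneg hX0 ρ) (zb X y ρ)
    have h2 : Real.exp (2 * za X ρ) ≤ Real.exp X := Real.exp_le_exp.2 (by linarith [Pool.Agent.Helper24.WS.za_le hX0 ρ])
    have h4 : 1 / (1 + zb X y ρ ^ 2) ≤ R * (1 / (1 + zb X t ρ ^ 2)) := by
      have h5 := inv_shift64 (zb X t ρ) (X * (y - t))
      have h6 : zb X t ρ + X * (y - t) = zb X y ρ := by unfold zb; ring
      rw [h6] at h5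
      refine h5.trans (mul_le_mul_of_nonneg_right ?_ (by positivity))
      rw [hR]
      have h7 : (X * (y - t)) ^ 2 ≤ (X * H) ^ 2 := by
        refine pow_le_pow_left₀ (mul_nonneg hX0.le (by linarith [hy.1])) ?_ 2
        exact mul_le_mul_of_nonneg_left (by linarith [hy.2]) hX0.le
      linarith
    calc mx ρ * |Pk (za X ρ) (zb X y ρ)| ≤ mx ρ * (76 * Real.exp (2 * za X ρ) / (1 + zb X y ρ ^ 2)) :=
          mul_le_mul_of_nonneg_left h1 hm
      _ = 76 * Real.exp (2 * za X ρ) * (mx ρ * (1 / (1 + zb X y ρ ^ 2))) := by ring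
      _ ≤ B * (mx ρ * (R * (1 / (1 + zb X t ρ ^ 2)))) := by
          refine mul_le_mul ?_ (mul_le_mul_of_nonneg_left h4 hm) (by positivity) hB0.le
          rw [hB]
          linarith
      _ = _ := by ring
  have hcont : ∀ ρ : ZS, Continuous fun y => mx ρ * Pk (za X ρ) (zb X y ρ) := by
    intro ρ
    refine continuous_const.mul ((Pool.Agent.Helper24.WS.Pk_cont _).comp ?_)
    unfold zb
    fun_prop
  have hsum := (Pool.Agent.Helper24.UG.summable_inv hX0 t).mul_left (B * R)
  have hHS : HasSum (fun ρ : ZS => ∫ y in t..(t + H), mx ρ * Pk (za X ρ) (zb X y ρ)) (∫ y in t..(t + H), Edge X y) := by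
    refine intervalIntegral.hasSum_integral_of_dominated_convergence
      (fun ρ _ => B * R * (mx ρ * (1 / (1 + zb X t ρ ^ 2)))) (fun ρ => ?_) (fun ρ => ?_) ?_ ?_ ?_
    · exact (hcont ρ).aestronglyMeasurable
    · exact Eventually.of_forall fun y hy => hmaj ρ y hy
    · exact Eventually.of_forall fun y _ => hsum
    · exact intervalIntegrable_const
    · exact Eventually.of_forall fun y _ => (Pool.Agent.Helper24.WS.summable_Pk' hX0 y).hasSum
  have hint : IntervalIntegrable (Edge X) volume t (t + H) := by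
    have hm : AEStronglyMeasurable (Edge X) (volume.restrict (uIoc t (t + H))) := by
      have : Measurable (Edge X) := by
        refine measurable_of_tendsto_metrizable' (atTop : Filter (Finset ZS))
          (f := fun (s : Finset ZS) y => ∑ ρ ∈ s, mx ρ * Pk (za X ρ) (zb X y ρ)) (fun s => ?_) ?_
        · exact (continuous_finsetSum s fun ρ _ => hcont ρ).measurable
        · rw [tendsto_pi_nhds]
          intro y
          exact (Pool.Agent.Helper24.WS.summable_Pk' hX0 y).hasSum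
      exact this.aestronglyMeasurable
    refine (intervalIntegrable_const (c := ∑' ρ : ZS, B * R * (mx ρ * (1 / (1 + zb X t ρ ^ 2))))).mono_fun' hm ?_
    refine (ae_restrict_iff' measurableSet_uIoc).2 (Eventually.of_forall fun y hy => ?_)
    unfold Edge
    exact tsum_of_norm_bounded hsum.hasSum fun ρ => hmaj ρ y hy
  refine ⟨hint, ?_⟩
  -- each term
  have hterm : ∀ ρ : ZS, (∫ y in t..(t + H), mx ρ * Pk (za X ρ) (zb X y ρ)) =
      mx ρ * ((P2 (za X ρ) (zb X (t + H) ρ) - P2 (za X ρ) (zb X t ρ)) / X) := by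
    intro ρ
    have ha := Pool.Agent.Helper24.WS.za_nonneg hX0 ρ
    have hd : ∀ y ∈ uIcc t (t + H), HasDerivAt (fun y => P2 (za X ρ) (zb X y ρ) / X) (Pk (za X ρ) (zb X y ρ)) y := by
      intro y _
      have h1 : HasDerivAt (fun y : ℝ => zb X y ρ) X y := by
        unfold zb
        simpa using ((hasDerivAt_id y).sub_const (ρ : ℂ).im).const_mul X
      have h2 := ((P2_deriv ha (zb X y ρ)).comp y h1).div_const X
      refine h2.congr_deriv ?_
      field_simp
    have hc : Continuous fun y => Pk (za X ρ) (zb X y ρ) := by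
      refine (Pool.Agent.Helper24.WS.Pk_cont _).comp ?_
      unfold zb
      fun_prop
    rw [intervalIntegral.integral_const_mul, intervalIntegral.integral_eq_sub_of_hasDerivAt hd (hc.intervalIntegrable _ _)]
    ring
  have hbd : ∀ ρ : ZS, ‖∫ y in t..(t + H), mx ρ * Pk (za X ρ) (zb X y ρ)‖ ≤
      11 / 4 * (X * Real.exp (X / 2)) * (mx ρ * (1 / (1 + zb X (t + H) ρ ^ 2)) + mx ρ * (1 / (1 + zb X t ρ ^ 2))) := by
    intro ρ
    rw [hterm ρ]
    have hm := mx_nonneg (ρ : ℂ)
    have ha := Pool.Agent.Helper24.WS.za_nonneg hX0 ρ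
    have ha2 := Pool.Agent.Helper24.WS.za_le hX0 ρ
    have hcosh : Real.cosh (za X ρ) ≤ Real.exp (X / 2) := by
      have h1 : Real.cosh (za X ρ) ≤ Real.exp (za X ρ) := by
        rw [Real.cosh_eq]
        have h2 : Real.exp (-za X ρ) ≤ Real.exp (za X ρ) := Real.exp_le_exp.2 (by linarith)
        linarith
      exact h1.trans (Real.exp_le_exp.2 ha2)
    have hP : ∀ b : ℝ, |P2 (za X ρ) b| ≤ 11 / 4 * (X ^ 2 * Real.exp (X / 2)) * (1 / (1 + b ^ 2)) := by
      intro b
      refine (P2_bd ha b).trans ?_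
      have h1 : za X ρ ^ 2 ≤ (X / 2) ^ 2 := pow_le_pow_left₀ ha ha2 2
      have h2 : za X ρ ^ 2 * Real.cosh (za X ρ) ≤ (X / 2) ^ 2 * Real.exp (X / 2) :=
        mul_le_mul h1 hcosh (Real.cosh_pos _).le (by positivity)
      calc 11 * za X ρ ^ 2 * Real.cosh (za X ρ) / (1 + b ^ 2) =
            11 * (za X ρ ^ 2 * Real.cosh (za X ρ)) * (1 / (1 + b ^ 2)) := by ring
        _ ≤ 11 * ((X / 2) ^ 2 * Real.exp (X / 2)) * (1 / (1 + b ^ 2)) := by
            refine mul_le_mul_of_nonneg_right (mul_le_mul_of_nonneg_left h2 (by norm_num)) (by positivity)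
        _ = _ := by ring
    rw [Real.norm_eq_abs, abs_mul, abs_of_nonneg hm, abs_div, abs_of_pos hX0]
    have h3 : |P2 (za X ρ) (zb X (t + H) ρ) - P2 (za X ρ) (zb X t ρ)| ≤
        11 / 4 * (X ^ 2 * Real.exp (X / 2)) * (1 / (1 + zb X (t + H) ρ ^ 2) + 1 / (1 + zb X t ρ ^ 2)) := by
      refine (abs_sub _ _).trans ?_
      have := hP (zb X (t + H) ρ)
      have := hP (zb X t ρ)
      rw [mul_add]
      linarith
    calc mx ρ * (|P2 (za X ρ) (zb X (t + H) ρ) - P2 (za X ρ) (zb X t ρ)| / X) ≤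
          mx ρ * (11 / 4 * (X ^ 2 * Real.exp (X / 2)) * (1 / (1 + zb X (t + H) ρ ^ 2) + 1 / (1 + zb X t ρ ^ 2)) / X) := by
          refine mul_le_mul_of_nonneg_left (div_le_div_of_nonneg_right h3 hX0.le) hm
      _ = _ := by
          field_simp
  have s1 := Pool.Agent.Helper24.UG.summable_inv hX0 (t + H)
  have s2 := Pool.Agent.Helper24.UG.summable_inv hX0 t
  have h5 := tsum_of_norm_bounded (((s1.hasSum.add s2.hasSum)).mul_left (11 / 4 * (X * Real.exp (X / 2)))) hbd
  rw [hHS.tsum_eq, Real.norm_eq_abs] at h5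
  refine h5.trans ?_
  have hl1 : Real.log (4 + |t + H|) ≤ Real.log (4 + |t| + H) := by
    refine Real.log_le_log (by positivity) ?_
    have := abs_add_le t H
    rw [abs_of_nonneg hH] at this
    linarith
  have hl2 : Real.log (4 + |t|) ≤ Real.log (4 + |t| + H) := Real.log_le_log (by positivity) (by linarith)
  have h6 := hS X (t + H) hX
  have h7 := hS X t hX
  have h8 : (∑' ρ : ZS, mx ρ * (1 / (1 + zb X (t + H) ρ ^ 2))) + ∑' ρ : ZS, mx ρ * (1 / (1 + zb X t ρ ^ 2)) ≤
      2 * (C * Real.log (4 + |t| + H)) := by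
    have := mul_le_mul_of_nonneg_left hl1 hC.le
    have := mul_le_mul_of_nonneg_left hl2 hC.le
    linarith
  calc _ ≤ 11 / 4 * (X * Real.exp (X / 2)) * (2 * (C * Real.log (4 + |t| + H))) :=
        mul_le_mul_of_nonneg_left h8 (by positivity)
    _ = _ := by ring

end Pool.Agent.Helper49.SO
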